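import Pool.Agent.P8H74.WP.Stm

set_option autoImplicit false

/-!
# Project WP, package RED: residue classes of nonperiodic points
-/

open NumberField IsDedekindDomain Polynomial

namespace Pool.Agent.P8H53.WP

open Pool.Agent.P8H74.WP

section

variable {K : Type} [Field K] [NumberField K] (v : HeightOneSpectrum (𝓞 K))

/-- congruence modulo `v` -/
def Cong (x : K) (b : 𝓞 K) : Prop := v.valuation K x ≤ 1 ∧ v.valuation K (x - (b : K)) < 1

theorem int_le (b : 𝓞 K) : v.valuation K (b : K) ≤ 1 := v.valuation_le_one b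

theorem Cong.add {x x' : K} {b b' : 𝓞 K} (h : Cong v x b) (h' : Cong v x' b') :
    Cong v (x + x') (b + b') := by
  refine ⟨(v.valuation K).map_add_le h.1 h'.1, ?_⟩
  have e : x + x' - ((b + b' : 𝓞 K) : K) = (x - b) + (x' - b') := by
    push_cast
    ring
  rw [e]
  exact (v.valuation K).map_add_lt h.2 h'.2

theorem Cong.mul {x x' : K} {b b' : 𝓞 K} (h : Cong v x b) (h' : Cong v x' b') :
    Cong v (x * x') (b * b') := by
  refine ⟨by rw [map_mul]; exact mul_le_one' h.1 h'.1, ?_⟩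
  have e : x * x' - ((b * b' : 𝓞 K) : K) = (x - b) * x' + b * (x' - b') := by
    push_cast
    ring
  rw [e]
  refine (v.valuation K).map_add_lt ?_ ?_
  · rw [map_mul]
    exact (mul_le_of_le_one_right' h'.1).trans_lt h.2
  · rw [map_mul]
    exact (mul_le_of_le_one_left' (int_le v b)).trans_lt h'.2

theorem Cong.pow {x : K} {b : 𝓞 K} (h : Cong v x b) (n : ℕ) : Cong v (x ^ n) (b ^ n) := by
  induction n with
  | zero =>
    refine ⟨by simp, ?_⟩
    simp
  | succ n ih =>
    rw [pow_succ, pow_succ]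
    exact ih.mul v h

theorem Cong.sum {s : Finset ℕ} {x : ℕ → K} {b : ℕ → 𝓞 K} (h : ∀ i, Cong v (x i) (b i)) :
    Cong v (∑ i ∈ s, x i) (∑ i ∈ s, b i) := by
  classical
  induction s using Finset.induction_on with
  | empty =>
    refine ⟨by simp, ?_⟩
    simp
  | insert a s ha ih =>
    rw [Finset.sum_insert ha, Finset.sum_insert ha]
    exact (h a).add v ih

theorem exists_cong {x : K} (hx : v.valuation K x ≤ 1) : ∃ b : 𝓞 K, Cong v x b := by
  obtain ⟨b, hb⟩ := v.exists_valuation_sub_lt_of_integer hx (γ := 1)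
  refine ⟨b, hx, ?_⟩
  rw [Valuation.map_sub_swap]
  exact hb

theorem cong_int {x b : 𝓞 K} (h : Cong v (x : K) b) :
    Ideal.Quotient.mk v.asIdeal x = Ideal.Quotient.mk v.asIdeal b := by
  rw [Ideal.Quotient.eq, ← v.valuation_lt_one_iff_mem (K := K)]
  have := h.2
  rwa [← map_sub] at this

end

theorem red (hFF : S_FF) : S_RED := by
  intro K _ _ v f hgood hd hnorm
  obtain ⟨hc, hlc⟩ := hgood
  choose c hcc using fun i => exists_cong v (hc i)
  let _ : Field (𝓞 K ⧸ v.asIdeal) := Ideal.Quotient.field v.asIdeal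
  have : Finite (𝓞 K ⧸ v.asIdeal) := v.asIdeal.finiteQuotientOfFreeOfNeBot v.ne_bot
  obtain ⟨d, hdd⟩ : ∃ d, d = f.natDegree := ⟨_, rfl⟩
  obtain ⟨g, hg⟩ : ∃ g : (𝓞 K ⧸ v.asIdeal)[X], g = ∑ i ∈ Finset.range (d + 1),
    Polynomial.monomial i (Ideal.Quotient.mk v.asIdeal (c i)) := ⟨_, rfl⟩
  have hcoef : ∀ n, g.coeff n = if n < d + 1 then Ideal.Quotient.mk v.asIdeal (c n) else 0 := by
    intro n
    rw [hg, Polynomial.finsetSum_coeff]
    simp only [Polynomial.coeff_monomial]
    rw [Finset.sum_ite_eq' (Finset.range (d + 1)) n]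
    simp only [Finset.mem_range]
  have hcd : Ideal.Quotient.mk v.asIdeal (c d) ≠ 0 := by
    intro h0
    rw [Ideal.Quotient.eq_zero_iff_mem, ← v.valuation_lt_one_iff_mem (K := K)] at h0
    have h1 : v.valuation K (f.coeff d) = 1 := by rw [hdd]; exact hlc
    have h2 := (v.valuation K).map_add_lt (hcc d).2 h0
    rw [sub_add_cancel, h1] at h2
    exact lt_irrefl _ h2
  have hdeg : g.natDegree = d := by
    refine Polynomial.natDegree_eq_of_le_of_coeff_ne_zero ?_ ?_
    · rw [Polynomial.natDegree_le_iff_coeff_eq_zero]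
      intro N hN
      rw [hcoef, if_neg (by omega)]
    · rw [hcoef, if_pos (by omega)]
      exact hcd
  have hcard : Ideal.absNorm v.asIdeal = Nat.card (𝓞 K ⧸ v.asIdeal) := by
    rw [Ideal.absNorm_apply, Submodule.cardQuot_apply]
  have hF := hFF (𝓞 K ⧸ v.asIdeal) g (by rw [hdeg, hdd]; exact hd)
    (by rw [hdeg, hdd, ← hcard]; exact hnorm)
  rw [hdeg, hdd, ← hcard] at hF
  refine ⟨{a | ∀ x, g.eval x ≠ a}, hF, ?_⟩
  intro γ hγ hper
  rcases hper with h | ⟨m, hm, h⟩
  · exact absurd (int_le v γ) (not_le.2 h)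
  -- integrality of the orbit
  have hint : ∀ x : K, v.valuation K x ≤ 1 → ∀ b : 𝓞 K, Cong v x b →
      Cong v (f.eval x) (∑ i ∈ Finset.range (d + 1), c i * b ^ i) := by
    intro x _ b hb
    rw [Polynomial.eval_eq_sum_range, ← hdd]
    exact Cong.sum v fun i => (hcc i).mul v (hb.pow v i)
  have horb : ∀ n : ℕ, v.valuation K ((fun x => f.eval x)^[n] (γ : K)) ≤ 1 := by
    intro n
    induction n with
    | zero => exact int_le v γ
    | succ n ih =>
      rw [Function.iterate_succ_apply']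
      obtain ⟨b, hb⟩ := exists_cong v ih
      exact (hint _ ih b hb).1
  obtain ⟨m, rfl⟩ : ∃ n, m = n + 1 := ⟨m - 1, by omega⟩
  rw [Function.iterate_succ_apply'] at h
  obtain ⟨b, hb⟩ := exists_cong v (horb m)
  have h1 := hint _ (horb m) b hb
  have h2 : Cong v (γ : K) (∑ i ∈ Finset.range (d + 1), c i * b ^ i) := by
    refine ⟨int_le v γ, ?_⟩
    have e : (γ : K) - ((∑ i ∈ Finset.range (d + 1), c i * b ^ i : 𝓞 K) : K) =
        -((fun x => f.eval x) ((fun x => f.eval x)^[m] (γ : K)) - γ) +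
          (f.eval ((fun x => f.eval x)^[m] (γ : K)) -
            ((∑ i ∈ Finset.range (d + 1), c i * b ^ i : 𝓞 K) : K)) := by ring
    rw [e]
    exact (v.valuation K).map_add_lt (by rw [Valuation.map_neg]; exact h) h1.2
  refine hγ (Ideal.Quotient.mk v.asIdeal b) ?_
  rw [cong_int v h2, Polynomial.eval_eq_sum_range, hdeg, map_sum]
  refine Finset.sum_congr rfl fun i hi => ?_
  rw [Finset.mem_range] at hi
  rw [hcoef, if_pos hi, map_mul, map_pow]

end Pool.Agent.P8H53.WP
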