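import Pool.Agent.P8H74.WP.Stm2

/-!
# Project WP, part RES: the Bezout identity from a unit resultant over a valuation ring
-/

set_option autoImplicit false
set_option linter.all false

open Polynomial

namespace Pool.Agent.P8H53.WP

section

variable {K Γ₀ : Type} [Field K] [LinearOrderedCommGroupWithZero Γ₀] (w : Valuation K Γ₀)

/-- lifting a polynomial with integral coefficients -/
theorem lift_poly {f : K[X]} (h : ∀ i, w (f.coeff i) ≤ 1) :
    ∃ f' : (w.valuationSubring)[X], f'.map (algebraMap w.valuationSubring K) = f := by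
  have h1 : f ∈ Polynomial.lifts (algebraMap w.valuationSubring K) := by
    rw [Polynomial.lifts_iff_coeff_lifts]
    intro i
    exact ⟨⟨f.coeff i, (Valuation.mem_valuationSubring_iff w _).2 (h i)⟩, rfl⟩
  rw [Polynomial.mem_lifts] at h1
  exact h1

theorem unit_val {x : w.valuationSubring} (hx : IsUnit x) : w (x : K) = 1 := by
  obtain ⟨u, rfl⟩ := hx
  have h1 : w ((u : w.valuationSubring) : K) ≤ 1 := (Valuation.mem_valuationSubring_iff w _).1 (u : w.valuationSubring).2
  have h2 : w (((u⁻¹ : (w.valuationSubring)ˣ) : w.valuationSubring) : K) ≤ 1 :=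
    (Valuation.mem_valuationSubring_iff w _).1 ((u⁻¹ : (w.valuationSubring)ˣ) : w.valuationSubring).2
  have h3 : w ((u : w.valuationSubring) : K) * w (((u⁻¹ : (w.valuationSubring)ˣ) : w.valuationSubring) : K) = 1 := by
    rw [← map_mul]
    have h4 : ((u : w.valuationSubring) : K) * (((u⁻¹ : (w.valuationSubring)ˣ) : w.valuationSubring) : K) = 1 := by
      have h5 : (u : w.valuationSubring) * ((u⁻¹ : (w.valuationSubring)ˣ) : w.valuationSubring) = 1 := u.mul_inv
      exact congrArg (fun z : w.valuationSubring => (z : K)) h5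
    rw [h4, map_one]
  refine le_antisymm h1 ?_
  calc (1 : Γ₀) = w ((u : w.valuationSubring) : K) * w (((u⁻¹ : (w.valuationSubring)ˣ) : w.valuationSubring) : K) :=
        h3.symm
    _ ≤ w ((u : w.valuationSubring) : K) * 1 := mul_le_mul_right h2 _
    _ = _ := mul_one _

theorem deg_lt {F : Type} [Field F] {p : F[X]} {d : ℕ} (hd : 1 ≤ d) (h : p.natDegree ≤ d) (h0 : p.coeff d = 0) :
    p.natDegree < d := by
  rcases lt_or_eq_of_le h with h1 | h1
  · exact h1
  · exfalso
    rw [← h1] at h0
    have h2 : p = 0 := Polynomial.leadingCoeff_eq_zero.1 h0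
    rw [h2, Polynomial.natDegree_zero] at h1
    omega

end

theorem res : Pool.Agent.P8H74.WP.S_RES := by
  intro K Γ₀ _ _ w f g d hd hf hg hcf hcg hres
  obtain ⟨f', rfl⟩ := lift_poly w hcf
  obtain ⟨g', rfl⟩ := lift_poly w hcg
  have hinj : Function.Injective (algebraMap w.valuationSubring K) := Subtype.val_injective
  rw [Polynomial.natDegree_map_eq_of_injective hinj] at hf hg
  rw [resultant_map_map] at hres
  obtain ⟨ρ, hρ⟩ : ∃ ρ, ρ = resultant f' g' d d := ⟨_, rfl⟩
  rw [← hρ] at hres
  have hres' : w (ρ : K) = 1 := hres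
  have hρ0 : (ρ : K) ≠ 0 := by
    intro h0
    rw [h0, map_zero] at hres'
    exact zero_ne_one hres'
  have hinv : w ((ρ : K)⁻¹) = 1 := by rw [map_inv₀, hres', inv_one]
  obtain ⟨u, hu⟩ : ∃ u : w.valuationSubring, (u : K) = (ρ : K)⁻¹ :=
    ⟨⟨(ρ : K)⁻¹, (Valuation.mem_valuationSubring_iff w _).2 hinv.le⟩, rfl⟩
  have hmul : u * ρ = 1 := by
    apply Subtype.val_injective
    show (u : K) * (ρ : K) = 1
    rw [hu, inv_mul_cancel₀ hρ0]
  have hval : ∀ x : w.valuationSubring, w (algebraMap w.valuationSubring K x) ≤ 1 :=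
    fun x => (Valuation.mem_valuationSubring_iff w _).1 x.2
  constructor
  · obtain ⟨p, q, -, -, e⟩ := exists_mul_add_mul_eq_C_resultant f' g' (m := d) (n := d) hf hg (Or.inl (by omega))
    rw [← hρ] at e
    refine ⟨(C u * p).map (algebraMap w.valuationSubring K), (C u * q).map (algebraMap w.valuationSubring K),
      fun i => ?_, fun i => ?_, ?_⟩
    · rw [coeff_map]
      exact hval _
    · rw [coeff_map]
      exact hval _
    · rw [← Polynomial.map_mul, ← Polynomial.map_mul, ← Polynomial.map_add]
      have h1 : f' * (C u * p) + g' * (C u * q) = 1 := by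
        calc f' * (C u * p) + g' * (C u * q) = C u * (f' * p + g' * q) := by ring
          _ = C u * C ρ := by rw [e]
          _ = C (u * ρ) := (C_mul).symm
          _ = 1 := by rw [hmul, C_1]
      rw [h1, Polynomial.map_one]
  · by_contra hcon
    rw [not_or] at hcon
    obtain ⟨h1, h2⟩ := hcon
    rw [coeff_map] at h1 h2
    have k1 : ¬ IsUnit (f'.coeff d) := fun h => h1 (unit_val w h)
    have k2 : ¬ IsUnit (g'.coeff d) := fun h => h2 (unit_val w h)
    have r1 : IsLocalRing.residue w.valuationSubring (f'.coeff d) = 0 :=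
      (IsLocalRing.residue_eq_zero_iff _).2 ((IsLocalRing.mem_maximalIdeal _).2 k1)
    have r2 : IsLocalRing.residue w.valuationSubring (g'.coeff d) = 0 :=
      (IsLocalRing.residue_eq_zero_iff _).2 ((IsLocalRing.mem_maximalIdeal _).2 k2)
    have m1 : (f'.map (IsLocalRing.residue w.valuationSubring)).natDegree < d :=
      deg_lt hd (natDegree_map_le.trans hf) (by rw [coeff_map, r1])
    have m2 : (g'.map (IsLocalRing.residue w.valuationSubring)).natDegree < d :=
      deg_lt hd (natDegree_map_le.trans hg) (by rw [coeff_map, r2])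
    have h3 := resultant_eq_zero_of_lt_lt _ _ _ _ m1 m2
    rw [resultant_map_map, ← hρ] at h3
    have h4 := (IsLocalRing.residue_eq_zero_iff _).1 h3
    rw [IsLocalRing.mem_maximalIdeal, mem_nonunits_iff] at h4
    exact h4 (IsUnit.of_mul_eq_one u (by rw [mul_comm, hmul]))

end Pool.Agent.P8H53.WP
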